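import Mathlib
import Pool.Agent.Results.MP_b56c98_ag.PlaneAllDegrees
import Pool.Agent.J4.H78.FP.Poly

set_option autoImplicit false

/-!
# The plane Hilbert functions `H_{2,r,m}` for the values `m = F(n)` of polynomials at integers `n` with
# restricted or independent random digits

Let `n` have `k` digits in base `b`, all digits being independent random variables with ARBITRARY laws,
such that no digit takes a value with a probability above `1 - η`; for example, `n` is uniformly
distributed in the set of the integers whose `i`-th digits belong to arbitrary prescribed sets of at least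
two digits (this set may have only `2 ^ k` of the `b ^ k` integers with `k` digits). Let `F` be a
polynomial of degree `d ≥ 1` with rational leading coefficient, whose values `m(n) = F(n)` at these
integers are nonnegative integers, for instance `F = c X + h`.

(1) With probability at least `1 / 10000 ^ 23` (`k` large): for EVERY number `r ≥ 10` of points and EVERY
degree the Hilbert function `H_{2,r,m}(d)` is `min (binom (d + 2) 2) (r * binom (m + 1) 2)`, `m = m(n)`.

(2) For every single `r ≥ 10` this holds in all degrees outside of an event of probability at most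
`bad r + δ` (`k` large); `bad r < 1`, `bad r = 0` for `r ≥ 37`, `r = 13`, `r = 21` and the squares,
`bad 10 < 0.163`, `bad 11 < 0.053`.

How large `k` has to be depends on `b`, `η`, the degree and the leading coefficient of `F`, `r` and `δ`
only, but not on the laws of the digits and not on the other coefficients of `F`.

Proof. The plane systems are those of helper141 (`Pool.Agent.N141.SG`): a multiplicity `m` is good for all
numbers of points if the numbers `m √r` lie in certain arcs modulo one for 20 radicands `r`. For `d = 1`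
the mean of `e(θ m(n))` is a product over the digits, and `‖b! θ b ^ i‖ ≥ 1 / (2 b)` for infinitely many
`i` if `θ` is irrational. For `d ≥ 2` Weyl's inequality for polynomials at integers with independent
digits (`Pool.Agent.J4.H93.PD`) is used with boundedly many free digits.
-/

namespace Pool.Agent.Results.MP_b56c98_ag.DigitPolynomials

open MvPolynomial Filter
open Pool.Agent.Results.MP_b56c98_ag.PlaneAllDegrees (PlaneFormula formula_of)

/-- `H_{2,r,m}(d) = min (binom (2 + d) 2) (r * binom (2 + m - 1) 2)` for all degrees `d`, for the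
points of one nonempty open set of `r`-tuples. -/
def AllDegrees (r m : ℕ) : Prop := PlaneFormula r m fun _ => True

/-- The multiplicity `m ≥ 1` is settled for every number `r ≥ 10` of points. -/
def Holds (m : ℕ) : Prop := 1 ≤ m ∧ ∀ r : ℕ, 10 ≤ r → AllDegrees r m

open Classical in
/-- The bound for the probability of the bad multiplicities for `r` points. -/
noncomputable def bad (r : ℕ) : ℝ :=
  if 37 ≤ r ∨ r = 13 ∨ r = 21 ∨ IsSquare r then 0
  else if r = 11 ∨ r = 15 then (√(r : ℝ) - 3) / 6
  else (min (√(r : ℝ) - 3) (2 / 3 + 9 / (4 * √(r : ℝ))) +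
    min (√(r : ℝ) - 3) (2 / 3 + 1 / (4 * √(r : ℝ)))) / 2

/-- `w i a` is the probability that the `i`-th digit in base `b` is `a`; no digit takes a value with a
probability above `1 - η`. -/
def Laws (b : ℕ) (η : ℝ) (w : ℕ → ℕ → ℝ) : Prop :=
  ∀ i, (∀ a, 0 ≤ w i a ∧ w i a ≤ 1 - η) ∧ ∑ a ∈ Finset.range b, w i a = 1

open Classical in
/-- The probability of the event `E` for an integer `n` with `k` digits in base `b`, if the digits are
independent and `w i` is the law of the `i`-th digit `n / b ^ i % b`. -/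
noncomputable def prob (b k : ℕ) (w : ℕ → ℕ → ℝ) (E : ℕ → Prop) : ℝ :=
  ∑ n ∈ (Finset.range (b ^ k)).filter E, ∏ i ∈ Finset.range k, w i (n / b ^ i % b)

/-- `m n` is the value at `n` of the real polynomial `F` of degree `d` and leading coefficient `α`, for
all integers `n` with at most `k` digits in base `b`. -/
def Values (b k d : ℕ) (α : ℚ) (F : Polynomial ℝ) (m : ℕ → ℕ) : Prop :=
  F.natDegree = d ∧ F.leadingCoeff = α ∧ ∀ n < b ^ k, (m n : ℝ) = F.eval (n : ℝ)

theorem allDegrees_of {r m : ℕ} (h : Pool.Agent.N141.SG.Ex r m) : AllDegrees r m := by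
  obtain ⟨F, hF, hF'⟩ := h
  exact formula_of ⟨F, hF, fun P hP d _ => hF' P hP d⟩

theorem holds_of {m : ℕ} (hm : 1 ≤ m) (h : Pool.Agent.N141.SG.Tgt (m : ℕ)) : Holds m :=
  ⟨hm, fun _ hr => allDegrees_of (Pool.Agent.N141.SG.every h hm hr)⟩

theorem dig_of {b : ℕ} {η : ℝ} {w : ℕ → ℕ → ℝ} (hw : Laws b η w) : Pool.Agent.TH872.Sq.Dig b η w :=
  ⟨fun i a => ((hw i).1 a).1, fun i => (hw i).2, fun i a => ((hw i).1 a).2⟩

theorem prob_eq (b k : ℕ) (w : ℕ → ℕ → ℝ) (E : ℕ → Prop) :
    prob b k w E = Pool.Agent.J4.H78.FP.pr (Finset.range (b ^ k)) (Pool.Agent.TH872.Sq.P b w 0 k) E := by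
  unfold prob Pool.Agent.J4.H78.FP.pr Pool.Agent.TH872.Sq.P
  simp only [Nat.zero_add]

/-- **The plane Hilbert functions for multiplicities which are values of polynomials at integers with
independent random digits.** -/
theorem result :
    (∀ (b : ℕ) (η : ℝ) (d : ℕ) (α : ℚ), 2 ≤ b → 0 < η → 1 ≤ d → α ≠ 0 →
      (∃ k₀ : ℕ, ∀ k : ℕ, k₀ ≤ k → ∀ w, Laws b η w → ∀ (F : Polynomial ℝ) (m : ℕ → ℕ), Values b k d α F m →
        1 / 10000 ^ 23 ≤ prob b k w (fun n => Holds (m n))) ∧
      ∀ r : ℕ, 10 ≤ r → ∀ δ : ℝ, 0 < δ →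
        ∃ k₀ : ℕ, ∀ k : ℕ, k₀ ≤ k → ∀ w, Laws b η w → ∀ (F : Polynomial ℝ) (m : ℕ → ℕ), Values b k d α F m →
          prob b k w (fun n => ¬ AllDegrees r (m n)) ≤ bad r + δ) ∧
    (∀ r : ℕ, 10 ≤ r → bad r < 1) ∧
    (bad 10 < 0.163 ∧ bad 11 < 0.053 ∧ bad 12 < 0.465 ∧ bad 14 < 0.738 ∧ bad 15 < 0.146) := by
  refine ⟨fun b η d α hb hη hd hα => ?_, fun r hr => Pool.Agent.N141.SG.badU_lt hr,
    Pool.Agent.N141.SG.badU_vals⟩
  obtain ⟨h1, _, h3⟩ := Pool.Agent.J4.H78.FP.digitsP b hb η hη d hd α hα
  constructor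
  · obtain ⟨k₀, hk₀⟩ := h1
    refine ⟨k₀, fun k hk w hw F m hF => ?_⟩
    have h := hk₀ k hk (w, F, m) ⟨dig_of hw, hF.1, hF.2.1, hF.2.2⟩
    rw [prob_eq]
    refine h.trans (Pool.Agent.J4.H78.FP.pr_mono (fun n _ => Pool.Agent.TH872.Sq.P_nonneg (dig_of hw) 0 k n) ?_)
    intro n _ hn
    exact holds_of hn.1 hn.2
  · intro r hr δ hδ
    obtain ⟨k₀, hk₀⟩ := h3 r hr δ hδ
    refine ⟨k₀, fun k hk w hw F m hF => ?_⟩
    have h := hk₀ k hk (w, F, m) ⟨dig_of hw, hF.1, hF.2.1, hF.2.2⟩
    rw [prob_eq]
    refine le_trans (Pool.Agent.J4.H78.FP.pr_mono (fun n _ => Pool.Agent.TH872.Sq.P_nonneg (dig_of hw) 0 k n) ?_) h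
    intro n _ hn h0
    exact hn (allDegrees_of h0)

end Pool.Agent.Results.MP_b56c98_ag.DigitPolynomials
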