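import Mathlib
import Pool.Agent.Results.MP_b56c98_ag.PlaneAllDegrees
import Pool.Agent.J4.H74.MulExp.Seq

set_option autoImplicit false

/-!
# The plane Hilbert functions `H_{2,r,m}` for values `m` of multiplicative functions

Let `f` be a multiplicative function with positive integer values, at most of polynomial growth, such that `f(p) = b p + a` for all large
primes `p` (`b ≥ 1` and `a` fixed integers), for instance Euler's function `φ(t)` or the sum of the divisors `σ(t)`. Let `c ≥ 1`, `d ≥ 0`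
be integers. Consider the multiplicities `m = c f(t) + d`, `N < t ≤ 2 N` (the values of `φ` and `σ` form sets of density zero).

(1) For at least the proportion `1 / 10000 ^ 22` of the integers `t` in `(N, 2 N]`, `N` large: for EVERY number `r ≥ 10` of points
and EVERY degree `k` the Hilbert function `H_{2,r,m}(k)` is `min (binom (k + 2) 2) (r * binom (m + 1) 2)`.

(2) For every single `r ≥ 10` this holds in all degrees for all but at most the proportion `bad r + δ` of the integers `t` in
`(N, 2 N]`; `bad r < 1`, `bad r = 0` for `r ≥ 37`, `r = 13`, `r = 21` and the squares, `bad 10 < 0.163`, `bad 11 < 0.053`.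

Proof. The plane systems are those of helper141 (`Pool.Agent.N141.SG`): a multiplicity `m` is good for all numbers of points if the
numbers `m √r` lie in certain arcs modulo one for 20 radicands `r`. The new ingredient is the theorem that the exponential sums
`∑_{t ≤ N} e(γ f(t))` are `o(N)` for all irrational algebraic numbers `γ` (`Pool.Agent.J4.H74.MulExp.small`): by the Turán-Kubilius
inequality one may sum over `t = p q k` with primes `p`, `q` of suitable ranges, where `f(t) = f(k) (b p + a) (b q + a)` for most `t`; this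
is a bilinear sum in `p` and `q` unless a small multiple of `γ f(k) b ^ 2` is very near to an integer; by Liouville's inequality the values
`f(k)` with this property belong to a sparse set, and a multiplicative function of this kind has few values in a sparse set
(`Pool.Agent.N733.TG`).
-/

namespace Pool.Agent.Results.MP_b56c98_ag.MultiplicativeMultiplicities

open MvPolynomial Filter
open Pool.Agent.Results.MP_b56c98_ag.PlaneAllDegrees (PlaneFormula formula_of)

/-- `H_{2,r,m}(d) = min (binom (2 + d) 2) (r * binom (2 + m - 1) 2)` for all degrees `d`, for the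
points of one nonempty open set of `r`-tuples. -/
def AllDegrees (r m : ℕ) : Prop := PlaneFormula r m fun _ => True

/-- The multiplicity `m ≥ 1` is settled for every number `r ≥ 10` of points. -/
def Holds (m : ℕ) : Prop := 1 ≤ m ∧ ∀ r : ℕ, 10 ≤ r → AllDegrees r m

open Classical in
/-- The bound for the proportion of the bad multiplicities for `r` points. -/
noncomputable def bad (r : ℕ) : ℝ :=
  if 37 ≤ r ∨ r = 13 ∨ r = 21 ∨ IsSquare r then 0
  else if r = 11 ∨ r = 15 then (√(r : ℝ) - 3) / 6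
  else (min (√(r : ℝ) - 3) (2 / 3 + 9 / (4 * √(r : ℝ))) +
    min (√(r : ℝ) - 3) (2 / 3 + 1 / (4 * √(r : ℝ)))) / 2

/-- Multiplicative functions with positive values and of polynomial growth which are `b p + a` at all large primes `p`. -/
structure LinearAtPrimes (f : ℕ → ℕ) : Prop where
  mul : ∀ m n : ℕ, Nat.Coprime m n → f (m * n) = f m * f n
  pos : ∀ m : ℕ, 1 ≤ m → 1 ≤ f m
  growth : ∃ C D : ℕ, ∀ m : ℕ, 1 ≤ m → f m ≤ C * m ^ D
  prime : ∃ (P b : ℕ) (a : ℤ), 1 ≤ b ∧ ∀ p : ℕ, P ≤ p → p.Prime → (f p : ℤ) = b * p + a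

/-- The number of the integers `t` with `N < t ≤ 2 N` and `p t`. -/
noncomputable def count (p : ℕ → Prop) (N : ℕ) : ℝ := ({t : ℕ | N < t ∧ t ≤ 2 * N ∧ p t}.ncard : ℝ)

theorem allDegrees_of {r m : ℕ} (h : Pool.Agent.N141.SG.Ex r m) : AllDegrees r m := by
  obtain ⟨F, hF, hF'⟩ := h
  exact formula_of ⟨F, hF, fun P hP d _ => hF' P hP d⟩

theorem holds_of {m : ℕ} (hm : 1 ≤ m) (h : Pool.Agent.N141.SG.Tgt (m : ℕ)) : Holds m :=
  ⟨hm, fun _ hr => allDegrees_of (Pool.Agent.N141.SG.every h hm hr)⟩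

/-- counting in subsets -/
theorem count_le {N : ℕ} {p q : ℕ → Prop} (h : ∀ t, N < t → p t → q t) :
    ({t : ℕ | t ∈ Finset.Ioc N (2 * N) ∧ p t}.ncard : ℝ) ≤ count q N := by
  have h1 : {t : ℕ | t ∈ Finset.Ioc N (2 * N) ∧ p t} ⊆ {t : ℕ | N < t ∧ t ≤ 2 * N ∧ q t} :=
    fun t ht => ⟨(Finset.mem_Ioc.1 ht.1).1, (Finset.mem_Ioc.1 ht.1).2, h t (Finset.mem_Ioc.1 ht.1).1 ht.2⟩
  unfold count
  exact_mod_cast Set.ncard_le_ncard h1
    ((Finset.finite_toSet (Finset.Ioc N (2 * N))).subset fun t ht =>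
      Finset.mem_coe.2 (Finset.mem_Ioc.2 ⟨ht.1, ht.2.1⟩))

theorem count_le' {N : ℕ} {p q : ℕ → Prop} (h : ∀ t, N < t → p t → q t) :
    count p N ≤ ({t : ℕ | t ∈ Finset.Ioc N (2 * N) ∧ q t}.ncard : ℝ) := by
  have h1 : {t : ℕ | N < t ∧ t ≤ 2 * N ∧ p t} ⊆ {t : ℕ | t ∈ Finset.Ioc N (2 * N) ∧ q t} :=
    fun t ht => ⟨Finset.mem_Ioc.2 ⟨ht.1, ht.2.1⟩, h t ht.1 ht.2.2⟩
  unfold count
  exact_mod_cast Set.ncard_le_ncard h1
    ((Finset.finite_toSet (Finset.Ioc N (2 * N))).subset fun t ht => ht.1)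

/-- **The plane Hilbert functions for multiplicities which are values of multiplicative functions.** -/
theorem result :
    (∀ f : ℕ → ℕ, LinearAtPrimes f → ∀ c d : ℕ, 1 ≤ c →
      (∀ᶠ N : ℕ in atTop, 1 / 10000 ^ 22 * (N : ℝ) ≤ count (fun t => Holds (c * f t + d)) N) ∧
      ∀ r : ℕ, 10 ≤ r → ∀ δ : ℝ, 0 < δ → ∀ᶠ N : ℕ in atTop,
        count (fun t => ¬ AllDegrees r (c * f t + d)) N ≤ (bad r + δ) * (N : ℝ)) ∧
    LinearAtPrimes Nat.totient ∧ LinearAtPrimes (fun t => ∑ d ∈ t.divisors, d) ∧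
    (∀ r : ℕ, 10 ≤ r → bad r < 1) ∧
    (bad 10 < 0.163 ∧ bad 11 < 0.053 ∧ bad 12 < 0.465 ∧ bad 14 < 0.738 ∧ bad 15 < 0.146) := by
  refine ⟨fun f hf c d hc => ?_, ?_, ?_, fun r hr =>
    Pool.Agent.N141.SG.badU_lt hr, Pool.Agent.N141.SG.badU_vals⟩
  · have hf' : Pool.Agent.J4.H74.MulExp.Aff f := ⟨hf.mul, hf.pos, hf.growth, hf.prime⟩
    constructor
    · filter_upwards [Pool.Agent.J4.H74.MulExp.tgt_mul hf' hc d] with N hN
      refine hN.trans (count_le fun t ht h => ?_)
      have h1 := hf.pos t (by omega)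
      have h2 : 1 ≤ c * f t := Nat.mul_pos hc h1
      exact holds_of (by omega) h
    · intro r hr δ hδ
      filter_upwards [Pool.Agent.J4.H74.MulExp.one_mul' hr hf' hc d hδ] with N hN
      exact (count_le' fun t _ ht h1 => ht (allDegrees_of h1)).trans hN
  · have h := Pool.Agent.J4.H74.MulExp.aff_totient
    exact ⟨h.mul, h.pos, h.growth, h.prime⟩
  · have h := Pool.Agent.J4.H74.MulExp.aff_sigma
    exact ⟨h.mul, h.pos, h.growth, h.prime⟩

end Pool.Agent.Results.MP_b56c98_ag.MultiplicativeMultiplicities
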