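import Mathlib
import Pool.Agent.Results.MP_b56c98_ag.PlaneAllDegrees
import Pool.Agent.J4.H78.FP.Floor
import Pool.Agent.J4.H78.FP.Pal2

set_option autoImplicit false

/-!
# The plane Hilbert functions `H_{2,r,m}` for palindromes `m` and for the integer parts `m = ⌊F(n)⌋` of real
# polynomials with a transcendental leading coefficient at integers `n` with random digits

Good multiplicities. `Holds m`: for EVERY number `r ≥ 10` of points and EVERY degree `d` the Hilbert
function `H_{2,r,m}(d)` is `min (binom (d + 2) 2) (r * binom (m + 1) 2)`. `AllDegrees r m`: this is so for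
the given `r` in all degrees. `bad r < 1` is explicit, `bad r = 0` for `r ≥ 37`, `r = 13`, `r = 21` and the
squares, `bad 10 < 0.163`, `bad 11 < 0.053`.

(A) Let `b ≥ 2` and `c ≥ 1`. For all large `K` and ALL integers `h ≥ 0`: `Holds (c p + h)` for at least the
proportion `1 / 10000 ^ 23` of the palindromes `p` with `K` digits in base `b`, and for every single
`r ≥ 10` and `δ > 0`, `AllDegrees r (c p + h)` for all but at most the proportion `bad r + δ` of them.

(B) The same holds for random palindromes whose digits, apart from the first one, are independent random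
variables with arbitrary laws, such that no digit takes a value with a probability above `1 - η` (for
instance, palindromes with restricted digits).

(C) The same holds for `m(n) = ⌊F(n)⌋` if `F` is any real polynomial of degree `d ≥ 1` whose leading
coefficient `α` is transcendental and `n` has `k` independent random digits in base `b` with arbitrary laws
as in (B) (for instance, all integers with restricted digits); `k` has to be large in terms of `b`, `η`,
`d`, `α`, `r` and `δ` only. For `α = √2` this is false: `√2 ⌊√2 n ^ 2⌋ = 2 n ^ 2 - √2 {√2 n ^ 2}` is not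
uniformly distributed modulo one.

Proof. The plane systems are those of helper141 (`Pool.Agent.N141.SG`): a multiplicity `m` is good for all
numbers of points if the numbers `m √r` lie in certain arcs modulo one for 20 radicands `r`. (A), (B): the
mean of `e(θ p)` is a product over the lower digits; the factors are small if `y (b ^ j + b ^ (K - 1 - j))`,
`y = b! θ`, is not near to an integer. If this were near to an integer for `j = i, ..., i'`, then the same
would be true of `(b ^ 2 - 1) y b ^ j`, and this is impossible for `i' > i'(i, y)`, whatever `K` may be.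
(C): Weyl's inequality for random digits (`Pool.Agent.J4.H93.PD`) at the frequencies `(θ + h) α`, and the
approximation of `e(-θ {x})` by trigonometric polynomials.
-/

namespace Pool.Agent.Results.MP_b56c98_ag.PalindromesAndIntegerParts

open MvPolynomial Filter
open Pool.Agent.Results.MP_b56c98_ag.PlaneAllDegrees (PlaneFormula formula_of)

/-- `H_{2,r,m}(d) = min (binom (2 + d) 2) (r * binom (2 + m - 1) 2)` for all degrees `d`, for the
points of one nonempty open set of `r`-tuples. -/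
def AllDegrees (r m : ℕ) : Prop := PlaneFormula r m fun _ => True

/-- The multiplicity `m ≥ 1` is settled for every number `r ≥ 10` of points. -/
def Holds (m : ℕ) : Prop := 1 ≤ m ∧ ∀ r : ℕ, 10 ≤ r → AllDegrees r m

open Classical in
/-- The bound for the probability of the bad multiplicities for `r` points. -/
noncomputable def bad (r : ℕ) : ℝ :=
  if 37 ≤ r ∨ r = 13 ∨ r = 21 ∨ IsSquare r then 0
  else if r = 11 ∨ r = 15 then (√(r : ℝ) - 3) / 6
  else (min (√(r : ℝ) - 3) (2 / 3 + 9 / (4 * √(r : ℝ))) +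
    min (√(r : ℝ) - 3) (2 / 3 + 1 / (4 * √(r : ℝ)))) / 2

/-- `w i a` is the probability that the `i`-th digit in base `b` is `a`; no digit takes a value with a
probability above `1 - η`. -/
def Laws (b : ℕ) (η : ℝ) (w : ℕ → ℕ → ℝ) : Prop :=
  ∀ i, (∀ a, 0 ≤ w i a ∧ w i a ≤ 1 - η) ∧ ∑ a ∈ Finset.range b, w i a = 1

open Classical in
/-- The probability of the event `E` for an integer `n` with `k` digits in base `b`, if the digits are
independent and `w i` is the law of the `i`-th digit `n / b ^ i % b`. -/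
noncomputable def prob (b k : ℕ) (w : ℕ → ℕ → ℝ) (E : ℕ → Prop) : ℝ :=
  ∑ n ∈ (Finset.range (b ^ k)).filter E, ∏ i ∈ Finset.range k, w i (n / b ^ i % b)

/-- `m n` is the integer part of the value at `n` of the real polynomial `F` of degree `d` and leading
coefficient `α`, for all integers `n` with at most `k` digits in base `b`. -/
def IntegerParts (b k d : ℕ) (α : ℝ) (F : Polynomial ℝ) (m : ℕ → ℕ) : Prop :=
  F.natDegree = d ∧ F.leadingCoeff = α ∧ ∀ n < b ^ k, (m n : ℤ) = ⌊F.eval (n : ℝ)⌋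

/-- `p` has exactly `K` digits in base `b`, and they form a palindrome. -/
def IsPal (b K p : ℕ) : Prop := (Nat.digits b p).length = K ∧ (Nat.digits b p).reverse = Nat.digits b p

/-- The palindrome with `K` places whose digits number `i` and `K - 1 - i` are the `i`-th digit of `n`,
`i ≤ K - 1 - i`. -/
def pal (b K n : ℕ) : ℕ := ∑ i ∈ Finset.range K, (n / b ^ (min i (K - 1 - i)) % b) * b ^ i

/-- `w i a` is the probability that the `i`-th digit in base `b` is `a`; no digit number `i ≥ 1` takes a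
value with a probability above `1 - η`. -/
def Laws₁ (b : ℕ) (η : ℝ) (w : ℕ → ℕ → ℝ) : Prop :=
  ∀ i, (∀ a, 0 ≤ w i a ∧ w i a ≤ 1 ∧ (1 ≤ i → w i a ≤ 1 - η)) ∧ ∑ a ∈ Finset.range b, w i a = 1

theorem allDegrees_of {r m : ℕ} (h : Pool.Agent.N141.SG.Ex r m) : AllDegrees r m := by
  obtain ⟨F, hF, hF'⟩ := h
  exact formula_of ⟨F, hF, fun P hP d _ => hF' P hP d⟩

theorem holds_of {m : ℕ} (hm : 1 ≤ m) (h : Pool.Agent.N141.SG.Tgt (m : ℕ)) : Holds m :=
  ⟨hm, fun _ hr => allDegrees_of (Pool.Agent.N141.SG.every h hm hr)⟩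

theorem dig_of {b : ℕ} {η : ℝ} {w : ℕ → ℕ → ℝ} (hw : Laws b η w) : Pool.Agent.TH872.Sq.Dig b η w :=
  ⟨fun i a => ((hw i).1 a).1, fun i => (hw i).2, fun i a => ((hw i).1 a).2⟩

theorem prob_eq (b k : ℕ) (w : ℕ → ℕ → ℝ) (E : ℕ → Prop) :
    prob b k w E = Pool.Agent.J4.H78.FP.pr (Finset.range (b ^ k)) (Pool.Agent.TH872.Sq.P b w 0 k) E := by
  unfold prob Pool.Agent.J4.H78.FP.pr Pool.Agent.TH872.Sq.P
  simp only [Nat.zero_add]

theorem dig1_of {b : ℕ} {η : ℝ} {w : ℕ → ℕ → ℝ} (hw : Laws₁ b η w) : Pool.Agent.J4.H78.FP.Dig1 b η w :=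
  ⟨fun i a => ((hw i).1 a).1, fun i a => ((hw i).1 a).2.1, fun i => (hw i).2, fun i a hi => ((hw i).1 a).2.2 hi⟩

/-- **The plane Hilbert functions for palindromes, random palindromes and integer parts of real
polynomials.** -/
theorem result :
    (∀ b c : ℕ, 2 ≤ b → 1 ≤ c →
      (∃ K₀ : ℕ, ∀ K : ℕ, K₀ ≤ K → ∀ h : ℕ,
        1 / 10000 ^ 23 * ({p : ℕ | IsPal b K p}.ncard : ℝ) ≤ ({p : ℕ | IsPal b K p ∧ Holds (c * p + h)}.ncard : ℝ)) ∧
      ∀ r : ℕ, 10 ≤ r → ∀ δ : ℝ, 0 < δ → ∃ K₀ : ℕ, ∀ K : ℕ, K₀ ≤ K → ∀ h : ℕ,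
        ({p : ℕ | IsPal b K p ∧ ¬ AllDegrees r (c * p + h)}.ncard : ℝ) ≤ (bad r + δ) * ({p : ℕ | IsPal b K p}.ncard : ℝ)) ∧
    (∀ (b c : ℕ) (η : ℝ), 2 ≤ b → 1 ≤ c → 0 < η →
      (∃ K₀ : ℕ, ∀ K : ℕ, K₀ ≤ K → ∀ w, Laws₁ b η w → ∀ h : ℕ,
        1 / 10000 ^ 23 ≤ prob b ((K + 1) / 2) w (fun n => Holds (c * pal b K n + h))) ∧
      ∀ r : ℕ, 10 ≤ r → ∀ δ : ℝ, 0 < δ → ∃ K₀ : ℕ, ∀ K : ℕ, K₀ ≤ K → ∀ w, Laws₁ b η w → ∀ h : ℕ,
        prob b ((K + 1) / 2) w (fun n => ¬ AllDegrees r (c * pal b K n + h)) ≤ bad r + δ) ∧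
    (∀ (b : ℕ) (η : ℝ) (d : ℕ) (α : ℝ), 2 ≤ b → 0 < η → 1 ≤ d → Transcendental ℤ α →
      (∃ k₀ : ℕ, ∀ k : ℕ, k₀ ≤ k → ∀ w, Laws b η w → ∀ (F : Polynomial ℝ) (m : ℕ → ℕ), IntegerParts b k d α F m →
        1 / 10000 ^ 23 ≤ prob b k w (fun n => Holds (m n))) ∧
      ∀ r : ℕ, 10 ≤ r → ∀ δ : ℝ, 0 < δ →
        ∃ k₀ : ℕ, ∀ k : ℕ, k₀ ≤ k → ∀ w, Laws b η w → ∀ (F : Polynomial ℝ) (m : ℕ → ℕ), IntegerParts b k d α F m →
          prob b k w (fun n => ¬ AllDegrees r (m n)) ≤ bad r + δ) ∧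
    (∀ r : ℕ, 10 ≤ r → bad r < 1) ∧
    (bad 10 < 0.163 ∧ bad 11 < 0.053 ∧ bad 12 < 0.465 ∧ bad 14 < 0.738 ∧ bad 15 < 0.146) := by
  refine ⟨fun b c hb hc => ?_, fun b c η hb hc hη => ?_, fun b η d α hb hη hd hα => ?_,
    fun r hr => Pool.Agent.N141.SG.badU_lt hr, Pool.Agent.N141.SG.badU_vals⟩
  · have hw := Pool.Agent.J4.H78.FP.dig1_wU b hb
    obtain ⟨h1, _, h3⟩ := Pool.Agent.J4.H78.FP.pal_laws b hb (1 / 2) (by norm_num) c hc
    have hb2 : (2 : ℝ) ≤ b := by exact_mod_cast hb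
    have hall : ∀ K : ℕ, 1 ≤ K → ({p : ℕ | IsPal b K p}.ncard : ℝ) = ((b : ℝ) - 1) * b ^ ((K + 1) / 2 - 1) := by
      intro K hK
      have h := Pool.Agent.J4.H78.FP.count_pal b hb K hK (fun _ => True)
      have e1 : {p : ℕ | Pool.Agent.J4.H78.FP.IsPal b K p ∧ True} = {p : ℕ | IsPal b K p} := by
        ext p
        simp only [and_true]
        exact Iff.rfl
      rw [e1] at h
      rw [h]
      have e2 : Pool.Agent.J4.H78.FP.pr (Finset.range (b ^ ((K + 1) / 2)))
          (Pool.Agent.TH872.Sq.P b (Pool.Agent.J4.H78.FP.wU b) 0 ((K + 1) / 2)) (fun _ => True) = 1 := by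
        unfold Pool.Agent.J4.H78.FP.pr
        refine Eq.trans (Finset.sum_congr ?_ fun _ _ => rfl) (Pool.Agent.TH872.Sq.P_sum (by omega) hw.dig 0 ((K + 1) / 2))
        ext n
        simp
      rw [e2, one_mul]
    have hpos : ∀ K : ℕ, (0 : ℝ) ≤ ((b : ℝ) - 1) * b ^ ((K + 1) / 2 - 1) := fun K =>
      mul_nonneg (by linarith) (by positivity)
    constructor
    · obtain ⟨K₀, hK₀⟩ := h1
      refine ⟨K₀ + 1, fun K hK h => ?_⟩
      have h4 := hK₀ K (by omega) (Pool.Agent.J4.H78.FP.wU b, h) hw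
      have h5 := Pool.Agent.J4.H78.FP.count_pal b hb K (by omega) (fun p => Holds (c * p + h))
      have h6 : 1 / 10000 ^ 23 ≤ Pool.Agent.J4.H78.FP.pr (Finset.range (b ^ ((K + 1) / 2)))
          (Pool.Agent.TH872.Sq.P b (Pool.Agent.J4.H78.FP.wU b) 0 ((K + 1) / 2))
          (fun n => Holds (c * Pool.Agent.J4.H78.FP.pal b K n + h)) :=
        h4.trans (Pool.Agent.J4.H78.FP.pr_mono (fun n _ => Pool.Agent.TH872.Sq.P_nonneg hw.dig 0 _ n)
          fun n _ hn => holds_of hn.1 hn.2)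
      rw [hall K (by omega)]
      refine le_trans ?_ (le_of_eq h5.symm)
      exact mul_le_mul_of_nonneg_right h6 (hpos K)
    · intro r hr δ hδ
      obtain ⟨K₀, hK₀⟩ := h3 r hr δ hδ
      refine ⟨K₀ + 1, fun K hK h => ?_⟩
      have h4 := hK₀ K (by omega) (Pool.Agent.J4.H78.FP.wU b, h) hw
      have h5 := Pool.Agent.J4.H78.FP.count_pal b hb K (by omega) (fun p => ¬ AllDegrees r (c * p + h))
      have h6 : Pool.Agent.J4.H78.FP.pr (Finset.range (b ^ ((K + 1) / 2)))
          (Pool.Agent.TH872.Sq.P b (Pool.Agent.J4.H78.FP.wU b) 0 ((K + 1) / 2))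
          (fun n => ¬ AllDegrees r (c * Pool.Agent.J4.H78.FP.pal b K n + h)) ≤ bad r + δ :=
        le_trans (Pool.Agent.J4.H78.FP.pr_mono (fun n _ => Pool.Agent.TH872.Sq.P_nonneg hw.dig 0 _ n)
          fun n _ hn h0 => hn (allDegrees_of h0)) h4
      rw [hall K (by omega)]
      refine (le_of_eq h5).trans ?_
      exact mul_le_mul_of_nonneg_right h6 (hpos K)
  · obtain ⟨h1, _, h3⟩ := Pool.Agent.J4.H78.FP.pal_laws b hb η hη c hc
    constructor
    · obtain ⟨K₀, hK₀⟩ := h1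
      refine ⟨K₀, fun K hK w hw h => ?_⟩
      have h4 := hK₀ K hK (w, h) (dig1_of hw)
      rw [prob_eq]
      refine h4.trans (Pool.Agent.J4.H78.FP.pr_mono
        (fun n _ => Pool.Agent.TH872.Sq.P_nonneg (dig1_of hw).dig 0 _ n) ?_)
      intro n _ hn
      exact holds_of hn.1 hn.2
    · intro r hr δ hδ
      obtain ⟨K₀, hK₀⟩ := h3 r hr δ hδ
      refine ⟨K₀, fun K hK w hw h => ?_⟩
      have h4 := hK₀ K hK (w, h) (dig1_of hw)
      rw [prob_eq]
      refine le_trans (Pool.Agent.J4.H78.FP.pr_mono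
        (fun n _ => Pool.Agent.TH872.Sq.P_nonneg (dig1_of hw).dig 0 _ n) ?_) h4
      intro n _ hn h0
      exact hn (allDegrees_of h0)
  · obtain ⟨h1, _, h3⟩ := Pool.Agent.J4.H78.FP.digitsF b hb η hη d hd α hα
    constructor
    · obtain ⟨k₀, hk₀⟩ := h1
      refine ⟨k₀, fun k hk w hw F m hF => ?_⟩
      have h := hk₀ k hk (w, F, m) ⟨dig_of hw, hF.1, hF.2.1, hF.2.2⟩
      rw [prob_eq]
      refine h.trans (Pool.Agent.J4.H78.FP.pr_mono (fun n _ => Pool.Agent.TH872.Sq.P_nonneg (dig_of hw) 0 k n) ?_)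
      intro n _ hn
      exact holds_of hn.1 hn.2
    · intro r hr δ hδ
      obtain ⟨k₀, hk₀⟩ := h3 r hr δ hδ
      refine ⟨k₀, fun k hk w hw F m hF => ?_⟩
      have h := hk₀ k hk (w, F, m) ⟨dig_of hw, hF.1, hF.2.1, hF.2.2⟩
      rw [prob_eq]
      refine le_trans (Pool.Agent.J4.H78.FP.pr_mono (fun n _ => Pool.Agent.TH872.Sq.P_nonneg (dig_of hw) 0 k n) ?_) h
      intro n _ hn h0
      exact hn (allDegrees_of h0)

end Pool.Agent.Results.MP_b56c98_ag.PalindromesAndIntegerParts
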